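import Pool.Agent.H34.Pmd3

set_option autoImplicit false

namespace Pool.Agent.Results.MP_f8e529_co.FreeLow
open Pool.Agent.H34.Pmd Set

lemma fin {n : ℕ} (M : Matroid (Fin n)) (F : Set (Fin n)) : ∃ r : ℕ, M.eRk F = (r : ℕ∞) :=
  (ENat.ne_top_iff_exists.1 (M.isRkFinite_of_finite (toFinite F)).eRk_lt_top.ne).imp
    fun _ h => h.symm

lemma ext {n : ℕ} {M : Matroid (Fin n)} (hE : M.E = univ) (d : ℕ) (S : Set (Fin n))
    (h : M.eRk S + d ≤ M.eRk univ) : ∃ F, M.IsFlat F ∧ S ⊆ F ∧ M.eRk F = M.eRk S + d := by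
  induction d with
  | zero => exact ⟨M.closure S, M.isFlat_closure S, M.subset_closure S (by simp [hE]),
      by rw [M.eRk_closure_eq]; simp⟩
  | succ d ih =>
    obtain ⟨r, hr⟩ := fin M S
    obtain ⟨R, hR⟩ := fin M univ
    rw [hr, hR] at h ih
    norm_cast at h
    obtain ⟨F, hF, hSF, hrF⟩ := ih (by norm_cast; omega)
    obtain ⟨p, hp⟩ : ∃ p, p ∉ F := by
      by_contra h'
      push Not at h'
      rw [eq_univ_of_forall h', hR] at hrF
      norm_cast at hrF
      omega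
    refine ⟨M.closure (insert p F), M.isFlat_closure _,
      hSF.trans ((subset_insert _ _).trans (M.subset_closure _ (by simp [hE]))), ?_⟩
    rw [M.eRk_closure_eq, rk_ins hE hF hp, hrF, hr]
    push_cast; ring

/-- The hyperplane family of a perfect matroid design of rank `r ≥ 4` whose flats of rank `r - 3`
have `r - 3` points is maximal. In rank four the last condition always holds. -/
theorem result :
    ∀ (n : ℕ) (M : Matroid (Fin n)), M.E = Set.univ →
      (∀ F₁ F₂ : Set (Fin n), M.IsFlat F₁ → M.IsFlat F₂ → M.eRk F₁ = M.eRk F₂ →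
        F₁.ncard = F₂.ncard) →
      4 ≤ M.eRk M.E →
      (∀ F : Set (Fin n), M.IsFlat F → M.eRk F + 3 = M.eRk M.E →
        ((F.ncard : ℕ) : ℕ∞) = M.eRk F) →
      ∀ B H₀ : Set (Fin n), M.IsFlat H₀ → M.eRk H₀ + 1 = M.eRk M.E →
        B.ncard = H₀.ncard →
        ¬ (M.IsFlat B ∧ M.eRk B + 1 = M.eRk M.E) →
        ∃ H : Set (Fin n), M.IsFlat H ∧ M.eRk H + 1 = M.eRk M.E ∧
          ∀ F : Set (Fin n), M.IsFlat F → M.eRk F + 2 ≤ M.eRk M.E →
            (B ∩ H).ncard ≠ F.ncard := by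
  intro n M hE hP h4 hf B H₀ hH0 hr0 hB _
  by_contra hcon
  push Not at hcon
  rw [hE] at h4 hf hr0 hcon
  obtain ⟨R, hR⟩ := fin M univ
  rw [hR] at h4 hf hr0 hcon
  norm_cast at h4
  obtain ⟨g, rfl⟩ : ∃ g, R = g + 4 := ⟨R - 4, by omega⟩
  -- sets of small rank
  have big : ∀ (S : Set (Fin n)) (r : ℕ), M.eRk S = r → r ≤ g + 1 →
      ∃ F, S ⊆ F ∧ M.eRk F = ((g + 1 : ℕ) : ℕ∞) ∧ F.ncard = g + 1 := by
    intro S r hr hle
    obtain ⟨F, hF, hSF, hrF⟩ := ext hE (g + 1 - r) S (by rw [hr, hR]; norm_cast; omega)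
    have e : M.eRk F = ((g + 1 : ℕ) : ℕ∞) := by rw [hrF, hr]; norm_cast; omega
    have := hf F hF (by rw [e]; norm_cast)
    rw [e] at this
    exact ⟨F, hSF, e, by exact_mod_cast this⟩
  have small : ∀ (S : Set (Fin n)) (r : ℕ), M.eRk S = r → r ≤ g + 1 → S.ncard = r := by
    intro S r hr hle
    obtain ⟨F, hSF, e, hc⟩ := big S r hr hle
    have h1 := M.eRk_union_le_eRk_add_encard S (F \ S)
    rw [union_sdiff_cancel hSF, e, hr, ← (toFinite _).cast_ncard_eq, Set.ncard_sdiff hSF, hc] at h1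
    have h2 := M.eRk_le_encard S
    rw [hr, ← (toFinite _).cast_ncard_eq] at h2
    have h3 := Set.ncard_le_ncard hSF
    norm_cast at h1 h2
    omega
  have flat : ∀ S : Set (Fin n), S.ncard = g + 1 → M.IsFlat S ∧ M.eRk S = g + 1 := by
    intro S hS
    obtain ⟨r, hr⟩ := fin M S
    have h2 := M.eRk_le_encard S
    rw [hr, ← (toFinite _).cast_ncard_eq, hS] at h2
    norm_cast at h2
    have e1 := small S r hr h2
    have e2 := small (M.closure S) r (by rw [M.eRk_closure_eq, hr]) h2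
    have e3 := Set.eq_of_subset_of_ncard_le (M.subset_closure S (by simp [hE])) (by omega)
    refine ⟨Matroid.isFlat_iff_closure_eq.2 e3.symm, ?_⟩
    rw [hr, ← e1, hS]; push_cast; rfl
  have h03 : M.eRk H₀ = g + 1 + 1 + 1 := by
    obtain ⟨r, h⟩ := fin M H₀
    rw [h] at hr0 ⊢
    norm_cast at hr0 ⊢
    omega
  have hk3 : g + 3 ≤ H₀.ncard := by
    have := M.eRk_le_encard H₀
    rw [h03, ← (toFinite H₀).cast_ncard_eq] at this
    norm_cast at this
  obtain ⟨G₀, hGB, hG0⟩ := Set.exists_subset_card_eq (s := B) (n := g) (by omega)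
  have hd := Set.ncard_sdiff hGB
  obtain ⟨y, hy, x, hx, hxy⟩ := (Set.one_lt_ncard (toFinite (B \ G₀))).1 (by omega)
  have hpt : ∀ z, z ∉ G₀ → M.IsFlat (insert z G₀) ∧ M.eRk (insert z G₀) = g + 1 :=
    fun z hz => flat _ (by rw [Set.ncard_insert_of_notMem hz, hG0])
  have hyx : y ∉ insert x G₀ := by
    rintro (h | h)
    · exact hxy h
    · exact hy.2 h
  have hL : M.eRk (M.closure (insert y (insert x G₀))) = g + 1 + 1 := by
    rw [M.eRk_closure_eq, rk_ins hE (hpt x hx.2).1 hyx, (hpt x hx.2).2]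
  refine core2 hE g G₀ hG0 hpt (M.closure (insert y (insert x G₀))).ncard H₀.ncard
    (fun L h h2 => hP _ _ h (M.isFlat_closure _) (h2.trans hL.symm))
    (fun H h h3 => hP _ _ h hH0 (h3.trans h03.symm)) (by rw [hR]; norm_cast) B hB hGB x y
    hx.1 hy.1 hx.2 hyx ?_
  intro H h h3 h2
  obtain ⟨F, hF, hF2, hFc⟩ := hcon H h (by rw [h3]; norm_cast)
  obtain ⟨r, hr'⟩ := fin M F
  rw [hr'] at hF2
  norm_cast at hF2
  by_cases hr : r ≤ g + 1
  · have := small F r hr' hr; omega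
  · rw [hFc]
    refine hP _ _ hF (M.isFlat_closure _) ?_
    rw [hL, hr']; norm_cast; omega

end Pool.Agent.Results.MP_f8e529_co.FreeLow
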